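import Pool.Agent.Helper415.DGA2

set_option autoImplicit false

/-!
# Norms close to the Hilbert norm

`N q y = ‖y‖ + (1/q) sup_j |⟨n_j, y⟩|` on `ℓ²(ℕ ⊕ ℕ)`, and its dual norm.
-/

open scoped InnerProductSpace

namespace Pool.Agent.Y648.GR

open Pool.Agent.Helper415.DGA (E ee nn inner_ee inner_nn inner_en inner_ne norm_nn norm_ee supn
  le_supn supn_le supn_nonneg supn_le_norm supn_add supn_smul supn_neg)

/-- the constant of the norm -/
noncomputable def cc (q : ℕ) : ℝ := 1 / (q : ℝ)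

lemma cc_nonneg (q : ℕ) : 0 ≤ cc q := by unfold cc; positivity

lemma cc_pos {q : ℕ} (hq : 4 ≤ q) : 0 < cc q := by
  have : (0 : ℝ) < q := by exact_mod_cast (by omega : 0 < q)
  unfold cc; positivity

lemma cc_le {q : ℕ} (hq : 4 ≤ q) : cc q ≤ 1 / 4 := by
  unfold cc
  have : (4 : ℝ) ≤ q := by exact_mod_cast hq
  exact one_div_le_one_div_of_le (by norm_num) this

/-- the norm on the predual -/
noncomputable def N (q : ℕ) (y : E) : ℝ := ‖y‖ + cc q * supn y

variable (q : ℕ)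

lemma N_add (y z : E) : N q (y + z) ≤ N q y + N q z := by
  unfold N
  have h1 := norm_add_le y z
  have h2 := mul_le_mul_of_nonneg_left (supn_add y z) (cc_nonneg q)
  linarith

lemma N_smul (a : ℝ) (y : E) : N q (a • y) = |a| * N q y := by
  unfold N
  rw [norm_smul, supn_smul, Real.norm_eq_abs]; ring

lemma N_neg (y : E) : N q (-y) = N q y := by
  rw [← neg_one_smul ℝ y, N_smul]; simp

lemma norm_le_N (y : E) : ‖y‖ ≤ N q y := by
  unfold N; linarith [mul_nonneg (cc_nonneg q) (supn_nonneg y)]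

lemma N_nonneg (y : E) : 0 ≤ N q y := (norm_nonneg y).trans (norm_le_N q y)

lemma N_le (y : E) : N q y ≤ (1 + cc q) * ‖y‖ := by
  unfold N; linarith [mul_le_mul_of_nonneg_left (supn_le_norm y) (cc_nonneg q)]

lemma N_zero : N q 0 = 0 := by
  have h := N_smul q 0 0
  simpa using h

/-- sharp uniform convexity of `N` -/
lemma N_uc (hq : 4 ≤ q) (a b : E) (ha : N q a = 1) (hb : N q b = 1) :
    (1 - cc q) * N q (a - b) ^ 2 ≤ (1 + cc q) * (4 - N q (a + b) ^ 2) := by
  have hc0 := cc_pos hq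
  have hc1 := cc_le hq
  set c := cc q with hc
  set A := ‖a‖ with hA
  set B := ‖b‖ with hB
  have hA0 : 0 ≤ A := norm_nonneg a
  have hB0 : 0 ≤ B := norm_nonneg b
  have hA1 : A ≤ 1 := by rw [← ha]; exact norm_le_N q a
  have hB1 : B ≤ 1 := by rw [← hb]; exact norm_le_N q b
  have haS : A + c * supn a = 1 := ha
  have hbS : B + c * supn b = 1 := hb
  set P := ‖a + b‖ with hP
  set Q := ‖a - b‖ with hQ
  have hP0 : 0 ≤ P := norm_nonneg _
  have hQ0 : 0 ≤ Q := norm_nonneg _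
  have hPs : P ≤ A + B := norm_add_le a b
  have hpar : P ^ 2 + Q ^ 2 = 2 * (A ^ 2 + B ^ 2) := by
    rw [hP, hQ, hA, hB, norm_add_sq_real, norm_sub_sq_real]; ring
  have hNP : N q (a + b) ≤ P + (2 - A - B) := by
    unfold N
    have h2 := mul_le_mul_of_nonneg_left (supn_add a b) hc0.le
    rw [← hc, ← hP]
    linarith
  have hNP0 : 0 ≤ N q (a + b) := N_nonneg q _
  -- `N (a + b) ^ 2 ≤ 4 - ((A + B) ^ 2 - P ^ 2)`
  have h1 : N q (a + b) ^ 2 ≤ 4 - ((A + B) ^ 2 - P ^ 2) := by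
    have h2 : N q (a + b) ^ 2 ≤ (P + (2 - A - B)) ^ 2 := pow_le_pow_left₀ hNP0 hNP 2
    nlinarith [mul_nonneg (sub_nonneg.2 (by linarith : A + B ≤ 2)) (sub_nonneg.2 hPs)]
  -- `|A - B| ≤ c Q`
  have hAB : |A - B| ≤ c * Q := by
    have h3 : A - B = c * (supn b - supn a) := by linarith
    have h4 : |supn b - supn a| ≤ supn (a - b) := by
      have e1 : supn a ≤ supn (a - b) + supn b := by
        have := supn_add (a - b) b
        rwa [sub_add_cancel] at this
      have e2 : supn b ≤ supn (a - b) + supn a := by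
        have := supn_add (-(a - b)) a
        rw [supn_neg] at this
        have e : -(a - b) + a = b := by abel
        rwa [e] at this
      rw [abs_le]; constructor <;> linarith
    have h5 : supn (a - b) ≤ Q := supn_le_norm _
    rw [h3, abs_mul, abs_of_pos hc0]
    exact mul_le_mul_of_nonneg_left (h4.trans h5) hc0.le
  have hAB2 : (A - B) ^ 2 ≤ c ^ 2 * Q ^ 2 := by
    have := pow_le_pow_left₀ (abs_nonneg _) hAB 2
    rwa [sq_abs, mul_pow] at this
  have hNQ : N q (a - b) ^ 2 ≤ (1 + c) ^ 2 * Q ^ 2 := by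
    have := pow_le_pow_left₀ (N_nonneg q _) (N_le q (a - b)) 2
    rwa [mul_pow] at this
  have h6 : (1 - c ^ 2) * Q ^ 2 ≤ (A + B) ^ 2 - P ^ 2 := by nlinarith
  have h7 : (1 - c) * N q (a - b) ^ 2 ≤ (1 - c) * ((1 + c) ^ 2 * Q ^ 2) :=
    mul_le_mul_of_nonneg_left hNQ (by linarith)
  have h8 : (1 - c) * ((1 + c) ^ 2 * Q ^ 2) = (1 + c) * ((1 - c ^ 2) * Q ^ 2) := by ring
  have h9 : (1 + c) * ((1 - c ^ 2) * Q ^ 2) ≤ (1 + c) * (4 - N q (a + b) ^ 2) :=
    mul_le_mul_of_nonneg_left (by linarith) (by linarith)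
  linarith

/-- the space with norm `N` -/
def Z (_ : ℕ) : Type := E

noncomputable instance : AddCommGroup (Z q) := inferInstanceAs (AddCommGroup E)
noncomputable instance : Module ℝ (Z q) := inferInstanceAs (Module ℝ E)

noncomputable def toE : Z q →ₗ[ℝ] E where
  toFun := fun y => y
  map_add' := fun _ _ => rfl
  map_smul' := fun _ _ => rfl

noncomputable def ofE : E →ₗ[ℝ] Z q where
  toFun := fun y => y
  map_add' := fun _ _ => rfl
  map_smul' := fun _ _ => rfl

lemma toE_ofE (y : E) : toE q (ofE q y) = y := rfl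

noncomputable def zNorm : AddGroupNorm (Z q) where
  toFun := fun y => N q (toE q y)
  map_zero' := by rw [map_zero]; exact N_zero q
  add_le' := fun y z => by rw [map_add]; exact N_add q _ _
  neg' := fun y => by rw [map_neg]; exact N_neg q _
  eq_zero_of_map_eq_zero' := fun y hy => by
    have h1 := norm_le_N q (toE q y)
    rw [hy] at h1
    exact norm_le_zero_iff.1 h1

noncomputable instance : NormedAddCommGroup (Z q) := (zNorm q).toNormedAddCommGroup

lemma norm_Z (y : Z q) : ‖y‖ = N q (toE q y) := rfl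

lemma norm_ofE (y : E) : ‖ofE q y‖ = N q y := rfl

noncomputable instance : NormedSpace ℝ (Z q) where
  norm_smul_le a y := by
    rw [norm_Z, norm_Z, map_smul]
    exact le_of_eq (N_smul q a _)

/-- dual of `(E, N)` -/
abbrev X0 : Type := Z q →L[ℝ] ℝ

lemma exists_unit (φ : X0 q) (r : ℝ) (hr : r < ‖φ‖) : ∃ y : Z q, ‖y‖ = 1 ∧ r < φ y := by
  rcases lt_or_ge r 0 with h0 | h0
  · have hne : ‖ofE q (nn 0)‖ ≠ 0 := by
      intro h
      rw [norm_ofE] at h
      have h1 := norm_le_N q (nn 0)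
      rw [norm_nn, h] at h1
      linarith
    set y0 : Z q := ‖ofE q (nn 0)‖⁻¹ • ofE q (nn 0) with hy0
    have hy1 : ‖y0‖ = 1 := by
      rw [hy0, norm_smul, norm_inv, norm_norm]
      exact inv_mul_cancel₀ hne
    rcases le_or_gt 0 (φ y0) with h1 | h1
    · exact ⟨y0, hy1, by linarith⟩
    · exact ⟨-y0, by rw [norm_neg, hy1], by rw [map_neg]; linarith⟩
  · obtain ⟨y, hy, hy2⟩ := φ.exists_lt_apply_of_lt_opNorm hr
    have hyne : y ≠ 0 := by
      rintro rfl
      rw [map_zero, norm_zero] at hy2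
      linarith
    have hypos : 0 < ‖y‖ := norm_pos_iff.2 hyne
    have hbig : r < ‖y‖⁻¹ * |φ y| := by
      rw [Real.norm_eq_abs] at hy2
      have h1 : 1 ≤ ‖y‖⁻¹ := (one_le_inv₀ hypos).2 hy.le
      have h2 : 0 ≤ |φ y| := abs_nonneg _
      nlinarith
    rcases le_or_gt 0 (φ y) with h1 | h1
    · refine ⟨‖y‖⁻¹ • y, ?_, ?_⟩
      · rw [norm_smul, norm_inv, norm_norm]; exact inv_mul_cancel₀ hypos.ne'
      · rw [map_smul, smul_eq_mul]; rwa [abs_of_nonneg h1] at hbig
    · refine ⟨-(‖y‖⁻¹ • y), ?_, ?_⟩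
      · rw [norm_neg, norm_smul, norm_inv, norm_norm]; exact inv_mul_cancel₀ hypos.ne'
      · rw [map_neg, map_smul, smul_eq_mul]; rw [abs_of_neg h1] at hbig; linarith

/-- the square of the dilation in the modulus of smoothness -/
noncomputable def kap : ℝ := (1 + cc q) / (1 - cc q)

lemma kap_ge (hq : 4 ≤ q) : 1 ≤ kap q := by
  have h1 := cc_pos hq
  have h2 := cc_le hq
  unfold kap
  rw [le_div_iff₀ (by linarith)]
  linarith

lemma kap_le (hq : 4 ≤ q) : kap q ≤ 1 + 3 * cc q := by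
  have h1 := cc_pos hq
  have h2 := cc_le hq
  unfold kap
  rw [div_le_iff₀ (by linarith)]
  nlinarith

/-- the modulus of smoothness of the dual is at most the one of Hilbert space, dilated -/
lemma smooth (hq : 4 ≤ q) (x h : X0 q) (hx : ‖x‖ = 1) (hh : ‖h‖ = 1) (u : ℝ) (hu : 0 < u) :
    (‖x + u • h‖ + ‖x - u • h‖) / 2 - 1 ≤ Real.sqrt (1 + kap q * u ^ 2) - 1 := by
  have hc0 := cc_pos hq
  have hc1 := cc_le hq
  have hk := kap_ge q hq
  have key : ‖x + u • h‖ + ‖x - u • h‖ ≤ 2 * Real.sqrt (1 + kap q * u ^ 2) := by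
    apply le_of_forall_pos_lt_add
    intro ε hε
    obtain ⟨y, hy1, hy2⟩ := exists_unit q (x + u • h) (‖x + u • h‖ - ε / 2) (by linarith)
    obtain ⟨z, hz1, hz2⟩ := exists_unit q (x - u • h) (‖x - u • h‖ - ε / 2) (by linarith)
    have h1 : x (y + z) ≤ ‖y + z‖ := by
      have := x.le_opNorm (y + z)
      rw [hx, one_mul] at this
      exact (le_abs_self _).trans this
    have h2 : h (y - z) ≤ ‖y - z‖ := by
      have := h.le_opNorm (y - z)
      rw [hh, one_mul] at this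
      exact (le_abs_self _).trans this
    have h3 : (1 - cc q) * ‖y - z‖ ^ 2 ≤ (1 + cc q) * (4 - ‖y + z‖ ^ 2) := by
      rw [norm_Z, norm_Z, map_sub, map_add]
      exact N_uc q hq (toE q y) (toE q z) hy1 hz1
    have h4 : (x + u • h) y + (x - u • h) z = x (y + z) + u * h (y - z) := by
      simp only [add_apply, sub_apply,
        smul_apply, smul_eq_mul, map_add, map_sub]
      ring
    have h5 : u * h (y - z) ≤ u * ‖y - z‖ := mul_le_mul_of_nonneg_left h2 hu.le
    set P := ‖y + z‖ with hP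
    set Q := ‖y - z‖ with hQ
    have hP0 : 0 ≤ P := norm_nonneg _
    have hQ0 : 0 ≤ Q := norm_nonneg _
    set k := kap q with hkdef
    have hk0 : 0 < k := by linarith
    have h6 : Q ^ 2 ≤ k * (4 - P ^ 2) := by
      rw [hkdef]; unfold kap
      rw [div_mul_eq_mul_div, le_div_iff₀ (by linarith)]
      linarith
    have h7 : P + u * Q ≤ 2 * Real.sqrt (1 + k * u ^ 2) := by
      have h8 : (P + u * Q) ^ 2 ≤ (2 * Real.sqrt (1 + k * u ^ 2)) ^ 2 := by
        rw [mul_pow, Real.sq_sqrt (by positivity)]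
        have h9 : 2 * (P * u * k * Q) ≤ P ^ 2 * u ^ 2 * k ^ 2 + Q ^ 2 := by
          nlinarith [sq_nonneg (P * u * k - Q)]
        have h10 : 2 * (P * u * Q) ≤ P ^ 2 * u ^ 2 * k + (4 - P ^ 2) := by
          have h11 : k * (2 * (P * u * Q)) ≤ k * (P ^ 2 * u ^ 2 * k + (4 - P ^ 2)) := by
            nlinarith
          exact le_of_mul_le_mul_left h11 hk0
        have h12 : u ^ 2 * Q ^ 2 ≤ u ^ 2 * (k * (4 - P ^ 2)) :=
          mul_le_mul_of_nonneg_left h6 (sq_nonneg u)
        nlinarith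
      exact le_of_sq_le_sq h8 (by positivity)
    linarith
  linarith

lemma J_bound (w : E) (y : Z q) : ‖⟪w, toE q y⟫_ℝ‖ ≤ ‖w‖ * ‖y‖ :=
  (norm_inner_le_norm w (toE q y)).trans
    (mul_le_mul_of_nonneg_left (norm_le_N q (toE q y)) (norm_nonneg w))

/-- the functional given by `w` -/
noncomputable def Jf (w : E) : X0 q :=
  LinearMap.mkContinuous
    { toFun := fun y : Z q => ⟪w, toE q y⟫_ℝ
      map_add' := fun y z => by rw [map_add, inner_add_right]
      map_smul' := fun a y => by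
        rw [map_smul, real_inner_smul_right]; rfl } ‖w‖ (J_bound q w)

lemma Jf_apply (w : E) (y : Z q) : Jf q w y = ⟪w, toE q y⟫_ℝ := rfl

/-- embedding of `E` in the dual -/
noncomputable def J : E →ₗ[ℝ] X0 q where
  toFun w := Jf q w
  map_add' w w' := by
    ext y
    rw [add_apply, Jf_apply, Jf_apply, Jf_apply, inner_add_left]
  map_smul' a w := by
    ext y
    rw [RingHom.id_apply, smul_apply, Jf_apply, Jf_apply,
      real_inner_smul_left, smul_eq_mul]

lemma J_apply (w : E) (y : Z q) : J q w y = ⟪w, toE q y⟫_ℝ := rfl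

lemma norm_J_le (w : E) : ‖J q w‖ ≤ ‖w‖ :=
  ContinuousLinearMap.opNorm_le_bound _ (norm_nonneg w) (fun y => J_bound q w y)

lemma norm_J_ge (w : E) : ‖w‖ ≤ (1 + cc q) * ‖J q w‖ := by
  rcases eq_or_ne w 0 with rfl | hw
  · rw [norm_zero, map_zero, norm_zero, mul_zero]
  have hpos : 0 < ‖w‖ := norm_pos_iff.2 hw
  have h1 := (J q w).le_opNorm (ofE q w)
  rw [J_apply, toE_ofE, real_inner_self_eq_norm_sq, norm_ofE, Real.norm_eq_abs,
    abs_of_nonneg (sq_nonneg _)] at h1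
  have h2 : ‖J q w‖ * N q w ≤ ‖J q w‖ * ((1 + cc q) * ‖w‖) :=
    mul_le_mul_of_nonneg_left (N_le q w) (norm_nonneg _)
  nlinarith

lemma norm_J_le' (w : E) (j : ℕ) (b t : ℝ) (hw : ‖w‖ ≤ t) (hb : |b| ≤ t) :
    ‖J q (w + (cc q * b) • nn j)‖ ≤ t := by
  have ht : 0 ≤ t := (norm_nonneg w).trans hw
  apply ContinuousLinearMap.opNorm_le_bound _ ht
  intro y
  rw [J_apply, inner_add_left, real_inner_smul_left, Real.norm_eq_abs]
  have h1 : |⟪w, toE q y⟫_ℝ| ≤ ‖w‖ * ‖toE q y‖ := abs_real_inner_le_norm w _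
  have h2 : |cc q * b * ⟪nn j, toE q y⟫_ℝ| ≤ cc q * t * supn (toE q y) := by
    rw [abs_mul, abs_mul, abs_of_nonneg (cc_nonneg q)]
    have := le_supn (toE q y) j
    have h3 : 0 ≤ |⟪nn j, toE q y⟫_ℝ| := abs_nonneg _
    have h4 := cc_nonneg q
    calc cc q * |b| * |⟪nn j, toE q y⟫_ℝ| ≤ cc q * t * |⟪nn j, toE q y⟫_ℝ| := by gcongr
      _ ≤ cc q * t * supn (toE q y) := by gcongr
  have h4 : ‖w‖ * ‖toE q y‖ ≤ t * ‖toE q y‖ := by gcongr
  calc |⟪w, toE q y⟫_ℝ + cc q * b * ⟪nn j, toE q y⟫_ℝ|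
      ≤ |⟪w, toE q y⟫_ℝ| + |cc q * b * ⟪nn j, toE q y⟫_ℝ| := abs_add_le _ _
    _ ≤ t * ‖toE q y‖ + cc q * t * supn (toE q y) := by linarith
    _ = t * N q (toE q y) := by unfold N; ring
    _ = t * ‖y‖ := rfl

end Pool.Agent.Y648.GR
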