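import Pool.Agent.Y648.GR.A

set_option autoImplicit false

/-!
# The slowly rotating vectors
-/

open scoped InnerProductSpace
open Finset

namespace Pool.Agent.Y648.GR

open Pool.Agent.Helper415.DGA (E ee nn inner_ee inner_nn inner_en inner_ne norm_nn norm_ee supn
  le_supn supn_le supn_nonneg supn_le_norm supn_add supn_smul supn_neg yv ang xi norm_yv
  norm_yv_sub inner_nn_xi inner_ee_xi norm_xi_sq norm_xi)

def KK (q : ℕ) : ℕ := 400 * q
def MM (q : ℕ) : ℕ := 160 * KK q ^ 2 * q + 2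

lemma KK_real (q : ℕ) : (KK q : ℝ) = 400 * q := by unfold KK; push_cast; ring

lemma MM_real (q : ℕ) : (MM q : ℝ) = 160 * (KK q : ℝ) ^ 2 * q + 2 := by unfold MM; push_cast; ring

lemma KK_cc {q : ℕ} (hq : 4 ≤ q) : (KK q : ℝ) * cc q = 400 := by
  have : (0 : ℝ) < q := by exact_mod_cast (by omega : 0 < q)
  rw [KK_real]; unfold cc; field_simp

lemma KK_ge {q : ℕ} (hq : 4 ≤ q) : (1600 : ℝ) ≤ KK q := by
  have : (4 : ℝ) ≤ q := by exact_mod_cast hq
  rw [KK_real]; linarith

noncomputable def be (q m : ℕ) : ℝ := 1 / ((m : ℝ) + MM q)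

noncomputable def al (q m : ℕ) : ℝ := KK q * be q m

lemma MM_pos (q : ℕ) : (0 : ℝ) < MM q := by rw [MM_real]; positivity

lemma be_pos (q m : ℕ) : 0 < be q m := by
  have := MM_pos q
  unfold be; positivity

lemma al_pos {q : ℕ} (hq : 4 ≤ q) (m : ℕ) : 0 < al q m := by
  have := KK_ge hq
  have := be_pos q m
  unfold al; positivity

lemma be_anti (q : ℕ) {m n : ℕ} (h : m ≤ n) : be q n ≤ be q m := by
  have := MM_pos q
  unfold be
  apply one_div_le_one_div_of_le (by positivity)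
  have : (m : ℝ) ≤ n := by exact_mod_cast h
  linarith

lemma al_anti (q : ℕ) {m n : ℕ} (h : m ≤ n) : al q n ≤ al q m := by
  unfold al
  exact mul_le_mul_of_nonneg_left (be_anti q h) (Nat.cast_nonneg _)

/-- `β = c α / 400` -/
lemma be_eq {q : ℕ} (hq : 4 ≤ q) (m : ℕ) : be q m = cc q * al q m / 400 := by
  have h := KK_cc hq
  unfold al
  have : cc q * (KK q * be q m) = (KK q * cc q) * be q m := by ring
  rw [this, h]; ring

/-- `α² ≤ c β / 160` -/
lemma al_sq_le {q : ℕ} (hq : 4 ≤ q) (m : ℕ) : al q m ^ 2 ≤ cc q * be q m / 160 := by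
  have hq0 : (0 : ℝ) < q := by exact_mod_cast (by omega : 0 < q)
  have hK := KK_ge hq
  have hb := be_pos q m
  have hM := MM_real q
  have h1 : (KK q : ℝ) ^ 2 * be q m ≤ cc q / 160 := by
    have hden : (0 : ℝ) < (m : ℝ) + MM q := by have := MM_pos q; positivity
    have e : (KK q : ℝ) ^ 2 * be q m = (KK q : ℝ) ^ 2 / ((m : ℝ) + MM q) := by unfold be; ring
    have e2 : cc q / 160 = 1 / (160 * q) := by unfold cc; field_simp
    rw [e, e2, div_le_div_iff₀ hden (by positivity)]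
    have hm0 : (0 : ℝ) ≤ m := Nat.cast_nonneg m
    rw [hM]
    nlinarith
  have e : al q m ^ 2 = ((KK q : ℝ) ^ 2 * be q m) * be q m := by unfold al; ring
  rw [e]
  calc (KK q : ℝ) ^ 2 * be q m * be q m ≤ cc q / 160 * be q m :=
        mul_le_mul_of_nonneg_right h1 hb.le
    _ = cc q * be q m / 160 := by ring

/-- `α ≤ c² / 64000` -/
lemma al_le {q : ℕ} (hq : 4 ≤ q) (m : ℕ) : al q m ≤ cc q ^ 2 / 64000 := by
  have h1 := al_sq_le hq m
  rw [be_eq hq] at h1
  have h2 := al_pos hq m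
  have h3 : al q m * al q m ≤ al q m * (cc q ^ 2 / 64000) := by nlinarith
  exact le_of_mul_le_mul_left h3 h2

lemma al_le' {q : ℕ} (hq : 4 ≤ q) (m : ℕ) : al q m ≤ cc q / 256000 := by
  have h1 := al_le hq m
  have h2 := cc_pos hq
  have h3 := cc_le hq
  nlinarith

lemma al_le_small {q : ℕ} (hq : 4 ≤ q) (m : ℕ) : al q m ≤ 1 / 1000 := by
  have h1 := al_le' hq m
  have h3 := cc_le hq
  linarith

lemma be_le_al {q : ℕ} (hq : 4 ≤ q) (m : ℕ) : be q m ≤ al q m / 1600 := by
  rw [be_eq hq]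
  have h1 := al_pos hq m
  have h3 := cc_le hq
  nlinarith

def lev (q m : ℕ) : ℕ := Nat.log 2 (m + MM q)

noncomputable def yb (q m : ℕ) : E := yv (m + MM q) (lev q m)

noncomputable def sq (q m : ℕ) : ℝ := Real.sqrt (1 - 9 / 4 * al q m ^ 2)

noncomputable def uu (q m : ℕ) : E := sq q m • yb q m + al q m • xi m

lemma sq_sq {q : ℕ} (hq : 4 ≤ q) (m : ℕ) : sq q m ^ 2 = 1 - 9 / 4 * al q m ^ 2 := by
  unfold sq
  apply Real.sq_sqrt
  have h1 := al_pos hq m
  have h2 := al_le_small hq m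
  nlinarith

lemma sq_nonneg' (q m : ℕ) : 0 ≤ sq q m := Real.sqrt_nonneg _

lemma sq_le_one {q : ℕ} (hq : 4 ≤ q) (m : ℕ) : sq q m ≤ 1 := by
  have h1 := sq_sq hq m
  have h2 := sq_nonneg' q m
  nlinarith [sq_nonneg (al q m)]

lemma sq_ge {q : ℕ} (hq : 4 ≤ q) (m : ℕ) : 1 - be q m ≤ sq q m := by
  unfold sq
  apply Real.le_sqrt_of_sq_le
  have h1 := be_pos q m
  have h2 := al_sq_le hq m
  have h3 := cc_le hq
  have h4 := be_le_al hq m
  have h5 := al_le_small hq m
  nlinarith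

lemma lev_spec (q m : ℕ) : 2 ^ lev q m ≤ m + MM q ∧ m + MM q < 2 ^ (lev q m + 1) := by
  have : 2 ≤ MM q := by unfold MM; omega
  exact ⟨Nat.pow_log_le_self 2 (by omega), Nat.lt_pow_succ_log_self (by norm_num) _⟩

lemma lev_eq (q m P : ℕ) (h1 : 2 ^ P ≤ m + MM q) (h2 : m + MM q < 2 ^ (P + 1)) :
    lev q m = P := by
  have : 2 ≤ MM q := by unfold MM; omega
  unfold lev
  exact (Nat.log_eq_iff (Or.inr ⟨by norm_num, by omega⟩)).2 ⟨h1, h2⟩

lemma yb_succ (q m : ℕ) : yb q (m + 1) = yv (m + 1 + MM q) (lev q m) := by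
  obtain ⟨h1, h2⟩ := lev_spec q m
  unfold yb
  by_cases h3 : m + 1 + MM q < 2 ^ (lev q m + 1)
  · rw [lev_eq q (m + 1) (lev q m) (by omega) h3]
  · have h4 : m + 1 + MM q = 2 ^ (lev q m + 1) := by omega
    have h5 : 2 ^ (lev q m + 1) < 2 ^ (lev q m + 1 + 1) := by
      apply Nat.pow_lt_pow_right (by norm_num) (by omega)
    rw [lev_eq q (m + 1) (lev q m + 1) (by omega) (by omega), h4]
    unfold yv ang
    have e1 : Real.pi / 2 * (((2 ^ (lev q m + 1) : ℕ) : ℝ) / 2 ^ (lev q m + 1) - 1) = 0 := by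
      push_cast
      rw [div_self (by positivity)]; ring
    have e2 : Real.pi / 2 * (((2 ^ (lev q m + 1) : ℕ) : ℝ) / 2 ^ (lev q m) - 1) =
        Real.pi / 2 := by
      push_cast
      rw [pow_succ]
      field_simp
      ring
    rw [e1, e2]
    simp

lemma norm_yb_sub (q m : ℕ) : ‖yb q m - yb q (m + 1)‖ ≤ 4 * be q m := by
  rw [yb_succ]
  unfold yb
  have h1 := norm_yv_sub (m + MM q) (lev q m) (m + 1 + MM q)
  have h2 : ang (m + MM q) (lev q m) - ang (m + 1 + MM q) (lev q m) =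
      -(Real.pi / 2 * (1 / 2 ^ lev q m)) := by
    unfold ang; push_cast; ring
  have h3 := Real.one_sub_sq_div_two_le_cos
    (x := ang (m + MM q) (lev q m) - ang (m + 1 + MM q) (lev q m))
  have h4 : ‖yv (m + MM q) (lev q m) - yv (m + 1 + MM q) (lev q m)‖ ^ 2 ≤
      (Real.pi / 2 * (1 / 2 ^ lev q m)) ^ 2 := by
    rw [h1]
    rw [h2] at h3 ⊢
    nlinarith
  have h5 : Real.pi / 2 * (1 / 2 ^ lev q m) ≤ 4 * be q m := by
    obtain ⟨_, h6⟩ := lev_spec q m
    have h7 : ((m : ℝ) + MM q) ≤ 2 * 2 ^ lev q m := by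
      have : ((m + MM q : ℕ) : ℝ) < ((2 ^ (lev q m + 1) : ℕ) : ℝ) := by exact_mod_cast h6
      push_cast at this
      rw [pow_succ] at this
      linarith
    have hLpos : (0 : ℝ) < 2 ^ lev q m := by positivity
    generalize (2 : ℝ) ^ lev q m = L at h7 hLpos ⊢
    have hm : (0 : ℝ) < (m : ℝ) + MM q := by have := MM_pos q; positivity
    have h8 : (1 : ℝ) / L ≤ 2 * be q m := by
      have e1 : 2 * be q m = 2 / ((m : ℝ) + MM q) := by unfold be; ring
      rw [e1, div_le_div_iff₀ hLpos hm]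
      linarith
    have h9 := Real.pi_le_four
    have h10 : (0 : ℝ) < 1 / L := by positivity
    have h11 := Real.pi_pos
    calc Real.pi / 2 * (1 / L) ≤ 2 * (1 / L) := by
          apply mul_le_mul_of_nonneg_right _ h10.le
          linarith
      _ ≤ 4 * be q m := by linarith
  have h6 : 0 ≤ Real.pi / 2 * (1 / 2 ^ lev q m) := by have := Real.pi_pos; positivity
  calc ‖yv (m + MM q) (lev q m) - yv (m + 1 + MM q) (lev q m)‖ ≤
        Real.pi / 2 * (1 / 2 ^ lev q m) := (abs_le_of_sq_le_sq' h4 h6).2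
    _ ≤ 4 * be q m := h5

lemma inner_yb_xi (q i m : ℕ) : ⟪yb q i, xi m⟫_ℝ = 0 := by
  unfold yb yv
  simp only [inner_add_left, real_inner_smul_left, inner_ee_xi]
  simp

lemma inner_nn_yb (q i m : ℕ) : ⟪nn i, yb q m⟫_ℝ = 0 := by
  unfold yb yv
  simp only [inner_add_right, real_inner_smul_right, inner_ne]
  simp

lemma norm_yb (q m : ℕ) : ‖yb q m‖ = 1 := by
  have h1 : ‖yb q m‖ ^ 2 = 1 := norm_yv _ _
  have h2 : 0 ≤ ‖yb q m‖ := norm_nonneg _
  nlinarith

lemma inner_uu (q i m : ℕ) : ⟪uu q i, uu q m⟫_ℝ = sq q i * sq q m * ⟪yb q i, yb q m⟫_ℝ +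
    al q i * al q m * ⟪xi i, xi m⟫_ℝ := by
  unfold uu
  simp only [inner_add_left, inner_add_right, real_inner_smul_left, real_inner_smul_right,
    inner_yb_xi]
  rw [real_inner_comm (yb q m) (xi i), inner_yb_xi]
  ring

lemma norm_uu {q : ℕ} (hq : 4 ≤ q) (m : ℕ) : ‖uu q m‖ = 1 := by
  have h1 : ‖uu q m‖ ^ 2 = 1 := by
    rw [← real_inner_self_eq_norm_sq, inner_uu, real_inner_self_eq_norm_sq,
      real_inner_self_eq_norm_sq, norm_xi_sq]
    have h2 := sq_sq hq m
    have h3 : ‖yb q m‖ ^ 2 = 1 := norm_yv _ _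
    rw [h3]
    nlinarith
  have h2 : 0 ≤ ‖uu q m‖ := norm_nonneg _
  nlinarith

lemma inner_nn_uu (q i m : ℕ) : ⟪nn i, uu q m⟫_ℝ = al q m *
    ((if i = m + 2 then 1 else 0) + (if i = m + 1 then 1 else 0) +
      1 / 2 * (if i = m then 1 else 0)) := by
  unfold uu
  rw [inner_add_right, real_inner_smul_right, real_inner_smul_right, inner_nn_yb, inner_nn_xi]
  ring

lemma supn_uu {q : ℕ} (hq : 4 ≤ q) (m : ℕ) : supn (uu q m) = al q m := by
  have ha := al_pos hq m
  apply le_antisymm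
  · apply supn_le
    intro i
    rw [inner_nn_uu, abs_mul, abs_of_pos ha]
    have : |(if i = m + 2 then (1 : ℝ) else 0) + (if i = m + 1 then 1 else 0) +
      1 / 2 * (if i = m then 1 else 0)| ≤ 1 := by
      by_cases h1 : i = m + 2
      · simp [h1]
      · by_cases h2 : i = m + 1
        · simp [h2]
        · by_cases h3 : i = m
          · simp [h3]; norm_num
          · simp [h1, h2, h3]
    nlinarith
  · have h1 := le_supn (uu q m) (m + 2)
    rw [inner_nn_uu] at h1
    simpa [abs_of_pos ha] using h1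

lemma N_uu {q : ℕ} (hq : 4 ≤ q) (m : ℕ) : N q (uu q m) = 1 + cc q * al q m := by
  unfold N; rw [norm_uu hq, supn_uu hq]

/-- the part of `u_m - u_{m+1}` in the span of the `e`'s -/
lemma norm_part {q : ℕ} (hq : 4 ≤ q) (m : ℕ) :
    ‖sq q m • yb q m - sq q (m + 1) • yb q (m + 1)‖ ≤ 5 * be q m := by
  have e : sq q m • yb q m - sq q (m + 1) • yb q (m + 1) =
      sq q m • (yb q m - yb q (m + 1)) + (sq q m - sq q (m + 1)) • yb q (m + 1) := by
    module
  have h1 : ‖sq q m • (yb q m - yb q (m + 1))‖ ≤ 4 * be q m := by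
    rw [norm_smul, Real.norm_eq_abs, abs_of_nonneg (sq_nonneg' q m)]
    have := norm_yb_sub q m
    have h2 := sq_le_one hq m
    have h3 := sq_nonneg' q m
    have h4 : 0 ≤ ‖yb q m - yb q (m + 1)‖ := norm_nonneg _
    nlinarith
  have h2 : ‖(sq q m - sq q (m + 1)) • yb q (m + 1)‖ ≤ be q m := by
    rw [norm_smul, norm_yb, mul_one, Real.norm_eq_abs, abs_le]
    have a1 := sq_ge hq m
    have a2 := sq_ge hq (m + 1)
    have a3 := sq_le_one hq m
    have a4 := sq_le_one hq (m + 1)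
    have a5 := be_anti q (Nat.le_succ m)
    constructor <;> linarith
  rw [e]
  refine (norm_add_le _ _).trans ?_
  linarith

lemma norm_uu_sub {q : ℕ} (hq : 4 ≤ q) (m : ℕ) : ‖uu q m - uu q (m + 1)‖ ≤ 4 * al q m := by
  have e : uu q m - uu q (m + 1) = (sq q m • yb q m - sq q (m + 1) • yb q (m + 1)) +
      (al q m • xi m - al q (m + 1) • xi (m + 1)) := by
    unfold uu; module
  have h3 : ‖al q m • xi m - al q (m + 1) • xi (m + 1)‖ ≤ 3 * al q m := by
    refine (norm_sub_le _ _).trans ?_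
    rw [norm_smul, norm_smul, norm_xi, norm_xi, Real.norm_eq_abs, Real.norm_eq_abs,
      abs_of_pos (al_pos hq m), abs_of_pos (al_pos hq (m + 1))]
    have := al_anti q (Nat.le_succ m)
    linarith
  rw [e]
  refine (norm_add_le _ _).trans ?_
  have h4 := norm_part hq m
  have h5 := be_le_al hq m
  have h6 := al_pos hq m
  linarith

/-- inner products with differences are of second order in `α`, up to `β` -/
lemma inner_uu_sub {q : ℕ} (hq : 4 ≤ q) (j m : ℕ) :
    |⟪uu q j - uu q (j + 1), uu q m⟫_ℝ| ≤ 5 * be q j + 9 / 2 * (al q j * al q m) := by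
  have e : ⟪uu q j - uu q (j + 1), uu q m⟫_ℝ =
      ⟪sq q j • yb q j - sq q (j + 1) • yb q (j + 1), sq q m • yb q m⟫_ℝ +
      ⟪al q j • xi j - al q (j + 1) • xi (j + 1), al q m • xi m⟫_ℝ := by
    have hx : ∀ i k, ⟪xi i, yb q k⟫_ℝ = 0 := fun i k => by
      rw [real_inner_comm]; exact inner_yb_xi q k i
    unfold uu
    simp only [inner_add_left, inner_sub_left, inner_add_right, real_inner_smul_left,
      real_inner_smul_right, inner_yb_xi, hx]
    ring
  have h1 : |⟪sq q j • yb q j - sq q (j + 1) • yb q (j + 1), sq q m • yb q m⟫_ℝ| ≤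
      5 * be q j := by
    refine (abs_real_inner_le_norm _ _).trans ?_
    have h2 := norm_part hq j
    have h3 : ‖sq q m • yb q m‖ ≤ 1 := by
      rw [norm_smul, norm_yb, mul_one, Real.norm_eq_abs, abs_of_nonneg (sq_nonneg' q m)]
      exact sq_le_one hq m
    have h4 := be_pos q j
    calc _ ≤ 5 * be q j * 1 := mul_le_mul h2 h3 (norm_nonneg _) (by positivity)
      _ = _ := mul_one _
  have h2 : |⟪al q j • xi j - al q (j + 1) • xi (j + 1), al q m • xi m⟫_ℝ| ≤
      9 / 2 * (al q j * al q m) := by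
    refine (abs_real_inner_le_norm _ _).trans ?_
    have h3 : ‖al q j • xi j - al q (j + 1) • xi (j + 1)‖ ≤ 3 * al q j := by
      refine (norm_sub_le _ _).trans ?_
      rw [norm_smul, norm_smul, norm_xi, norm_xi, Real.norm_eq_abs, Real.norm_eq_abs,
        abs_of_pos (al_pos hq j), abs_of_pos (al_pos hq (j + 1))]
      have := al_anti q (Nat.le_succ j)
      linarith
    have h4 : ‖al q m • xi m‖ = 3 / 2 * al q m := by
      rw [norm_smul, norm_xi, Real.norm_eq_abs, abs_of_pos (al_pos hq m)]; ring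
    rw [h4]
    have h5 := al_pos hq j
    have h6 := al_pos hq m
    nlinarith [norm_nonneg (al q j • xi j - al q (j + 1) • xi (j + 1))]
  rw [e]
  exact (abs_add_le _ _).trans (by linarith)

/-- far apart indices give orthogonal vectors -/
lemma inner_uu_far (q i m : ℕ) (h : 4 * (i + MM q) < m + MM q) : ⟪uu q i, uu q m⟫_ℝ = 0 := by
  obtain ⟨h1, h2⟩ := lev_spec q i
  obtain ⟨h3, h4⟩ := lev_spec q m
  have hM2 : 2 ≤ MM q := by unfold MM; omega
  have hlev : lev q i + 2 ≤ lev q m := by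
    by_contra hcon
    push Not at hcon
    have h5 : lev q m + 1 ≤ lev q i + 2 := by omega
    have h6 : 2 ^ (lev q m + 1) ≤ 2 ^ (lev q i + 2) := Nat.pow_le_pow_right (by norm_num) h5
    have h7 : 2 ^ (lev q i + 2) = 4 * 2 ^ lev q i := by ring
    omega
  rw [inner_uu]
  have h5 : ⟪yb q i, yb q m⟫_ℝ = 0 := by
    unfold yb yv
    simp only [inner_add_left, inner_add_right, real_inner_smul_left, real_inner_smul_right,
      inner_ee]
    rw [if_neg (by omega), if_neg (by omega), if_neg (by omega), if_neg (by omega)]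
    ring
  have h6 : ⟪xi i, xi m⟫_ℝ = 0 := by
    conv_lhs => rw [show xi i = nn (i + 2) + nn (i + 1) + (1 / 2 : ℝ) • nn i from rfl]
    simp only [inner_add_left, real_inner_smul_left, inner_nn_xi]
    rw [if_neg (by omega), if_neg (by omega), if_neg (by omega), if_neg (by omega),
      if_neg (by omega), if_neg (by omega), if_neg (by omega), if_neg (by omega),
      if_neg (by omega)]
    ring
  rw [h5, h6]; ring

/-- sum of squares of the steps -/
lemma sum_al_sq {q : ℕ} (hq : 4 ≤ q) (n : ℕ) : ∑ i ∈ range n, al q i ^ 2 ≤ cc q / 160 := by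
  have hq0 : (0 : ℝ) < q := by exact_mod_cast (by omega : 0 < q)
  have hK := KK_ge hq
  have hM := MM_real q
  have hM1 : (0 : ℝ) < (MM q : ℝ) - 1 := by
    rw [hM]
    have : 0 < 160 * (KK q : ℝ) ^ 2 * q := by positivity
    linarith
  have key : ∀ n : ℕ, ∑ i ∈ range n, be q i ^ 2 ≤
      1 / ((MM q : ℝ) - 1) - 1 / ((n : ℝ) + (MM q - 1)) := by
    intro n
    induction n with
    | zero => simp
    | succ n ih =>
      rw [sum_range_succ]
      have hn : (0 : ℝ) ≤ n := Nat.cast_nonneg n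
      have h1 : be q n ^ 2 ≤ 1 / ((n : ℝ) + (MM q - 1)) -
          1 / (((n + 1 : ℕ) : ℝ) + (MM q - 1)) := by
        unfold be
        push_cast
        generalize (MM q : ℝ) = M at hM1 ⊢
        have h2 : 0 < ((n : ℝ) + (M - 1)) := by linarith
        have h3 : 0 < ((n : ℝ) + 1 + (M - 1)) := by linarith
        have h4 : 0 < ((n : ℝ) + M) := by linarith
        have e1 : 1 / ((n : ℝ) + (M - 1)) - 1 / ((n : ℝ) + 1 + (M - 1)) =
            1 / (((n : ℝ) + (M - 1)) * ((n : ℝ) + M)) := by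
          rw [div_sub_div _ _ h2.ne' h3.ne']
          have e2 : (n : ℝ) + 1 + (M - 1) = n + M := by ring
          rw [e2]
          congr 1
          ring
        rw [e1, one_div, inv_pow, ← one_div]
        apply one_div_le_one_div_of_le (by positivity)
        nlinarith
      linarith
  have h1 := key n
  have h2 : (0 : ℝ) < 1 / ((n : ℝ) + (MM q - 1)) := by
    have hn : (0 : ℝ) ≤ n := Nat.cast_nonneg n
    apply one_div_pos.2
    linarith
  have h3 : ∑ i ∈ range n, al q i ^ 2 = (KK q : ℝ) ^ 2 * ∑ i ∈ range n, be q i ^ 2 := by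
    rw [mul_sum]
    apply sum_congr rfl
    intro i _
    unfold al; ring
  have h4 : (KK q : ℝ) ^ 2 * (1 / ((MM q : ℝ) - 1)) ≤ cc q / 160 := by
    have e2 : cc q / 160 = 1 / (160 * q) := by unfold cc; field_simp
    rw [e2, mul_one_div, div_le_div_iff₀ hM1 (by positivity), hM]
    nlinarith
  rw [h3]
  have h5 : (KK q : ℝ) ^ 2 * ∑ i ∈ range n, be q i ^ 2 ≤
      (KK q : ℝ) ^ 2 * (1 / ((MM q : ℝ) - 1)) :=
    mul_le_mul_of_nonneg_left (by linarith) (sq_nonneg _)
  linarith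

end Pool.Agent.Y648.GR
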