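import Pool.Agent.Y648.GR.B

set_option autoImplicit false

/-!
# The residuals
-/

open scoped InnerProductSpace
open Finset

namespace Pool.Agent.Y648.GR

open Pool.Agent.Helper415.DGA (E ee nn inner_ee inner_nn inner_en inner_ne norm_nn norm_ee supn
  le_supn supn_le supn_nonneg supn_le_norm supn_add supn_smul supn_neg yv ang xi norm_yv
  norm_yv_sub inner_nn_xi inner_ee_xi norm_xi_sq norm_xi)

noncomputable def lam (q : ℕ) : ℕ → ℝ
  | 0 => 1
  | (m + 1) => lam q m * (⟪uu q m, uu q (m + 1)⟫_ℝ + cc q * al q (m + 1)) /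
      (1 + cc q * al q (m + 1))

lemma den_pos {q : ℕ} (hq : 4 ≤ q) (m : ℕ) : 0 < 1 + cc q * al q m := by
  have h1 := al_pos hq m
  have h2 := cc_pos hq
  positivity

lemma inner_uu_succ {q : ℕ} (hq : 4 ≤ q) (m : ℕ) :
    1 - ⟪uu q m, uu q (m + 1)⟫_ℝ = ‖uu q m - uu q (m + 1)‖ ^ 2 / 2 := by
  rw [norm_sub_sq_real, norm_uu hq, norm_uu hq]; ring

lemma inner_uu_succ_le {q : ℕ} (hq : 4 ≤ q) (m : ℕ) :
    1 - ⟪uu q m, uu q (m + 1)⟫_ℝ ≤ 8 * al q m ^ 2 := by
  rw [inner_uu_succ hq]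
  have h1 := norm_uu_sub hq m
  have h2 : 0 ≤ ‖uu q m - uu q (m + 1)‖ := norm_nonneg _
  nlinarith

lemma inner_uu_le_one {q : ℕ} (hq : 4 ≤ q) (i m : ℕ) : |⟪uu q i, uu q m⟫_ℝ| ≤ 1 := by
  have h := abs_real_inner_le_norm (uu q i) (uu q m)
  rwa [norm_uu hq, norm_uu hq, one_mul] at h

lemma lam_diff {q : ℕ} (hq : 4 ≤ q) (m : ℕ) : lam q m - lam q (m + 1) =
    lam q m * (1 - ⟪uu q m, uu q (m + 1)⟫_ℝ) / (1 + cc q * al q (m + 1)) := by
  have h2 := (den_pos hq (m + 1)).ne'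
  rw [show lam q (m + 1) = lam q m * (⟪uu q m, uu q (m + 1)⟫_ℝ + cc q * al q (m + 1)) /
    (1 + cc q * al q (m + 1)) from rfl]
  field_simp
  ring

lemma lam_bounds {q : ℕ} (hq : 4 ≤ q) (m : ℕ) :
    1 - 8 * ∑ i ∈ range m, al q i ^ 2 ≤ lam q m ∧ lam q m ≤ 1 ∧ 0 < lam q m := by
  induction m with
  | zero => simp [lam]
  | succ m ih =>
    obtain ⟨h1, h2, h3⟩ := ih
    have h4 := lam_diff hq m
    have h5 := inner_uu_succ_le hq m
    have h6 : 0 ≤ 1 - ⟪uu q m, uu q (m + 1)⟫_ℝ := by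
      have := (abs_le.1 (inner_uu_le_one hq m (m + 1))).2
      linarith
    have h7 := den_pos hq (m + 1)
    have h7' : 1 ≤ 1 + cc q * al q (m + 1) := by
      have := mul_pos (cc_pos hq) (al_pos hq (m + 1))
      linarith
    have h8 : lam q m * (1 - ⟪uu q m, uu q (m + 1)⟫_ℝ) / (1 + cc q * al q (m + 1)) ≤
        8 * al q m ^ 2 := by
      rw [div_le_iff₀ h7]
      have h9 : lam q m * (1 - ⟪uu q m, uu q (m + 1)⟫_ℝ) ≤ 1 * (8 * al q m ^ 2) :=
        mul_le_mul h2 h5 h6 (by norm_num)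
      have h10 : 0 ≤ 8 * al q m ^ 2 := by positivity
      nlinarith
    have h9 : 0 ≤ lam q m * (1 - ⟪uu q m, uu q (m + 1)⟫_ℝ) / (1 + cc q * al q (m + 1)) :=
      div_nonneg (mul_nonneg h3.le h6) h7.le
    have h10 := sum_al_sq hq (m + 1)
    have hc := cc_le hq
    rw [sum_range_succ] at h10 ⊢
    refine ⟨by linarith, by linarith, by linarith⟩

lemma lam_ge' {q : ℕ} (hq : 4 ≤ q) (m : ℕ) : 1 - cc q / 20 ≤ lam q m := by
  have h1 := (lam_bounds hq m).1
  have h2 := sum_al_sq hq m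
  linarith

lemma lam_ge {q : ℕ} (hq : 4 ≤ q) (m : ℕ) : 79 / 80 ≤ lam q m := by
  have h1 := lam_ge' hq m
  have h2 := cc_le hq
  linarith

lemma lam_le {q : ℕ} (hq : 4 ≤ q) (m : ℕ) : lam q m ≤ 1 := (lam_bounds hq m).2.1
lemma lam_pos {q : ℕ} (hq : 4 ≤ q) (m : ℕ) : 0 < lam q m := (lam_bounds hq m).2.2

lemma lam_anti {q : ℕ} (hq : 4 ≤ q) (m : ℕ) : lam q (m + 1) ≤ lam q m := by
  have h4 := lam_diff hq m
  have h3 := lam_pos hq m
  have h6 : 0 ≤ 1 - ⟪uu q m, uu q (m + 1)⟫_ℝ := by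
    have := (abs_le.1 (inner_uu_le_one hq m (m + 1))).2
    linarith
  have h7 := den_pos hq (m + 1)
  have h9 : 0 ≤ lam q m * (1 - ⟪uu q m, uu q (m + 1)⟫_ℝ) / (1 + cc q * al q (m + 1)) :=
    div_nonneg (mul_nonneg h3.le h6) h7.le
  linarith

lemma lam_diff_le {q : ℕ} (hq : 4 ≤ q) (m : ℕ) : lam q m - lam q (m + 1) ≤ 8 * al q m ^ 2 := by
  have h4 := lam_diff hq m
  have h5 := inner_uu_succ_le hq m
  have h3 := lam_pos hq m
  have h2 := lam_le hq m
  have h6 : 0 ≤ 1 - ⟪uu q m, uu q (m + 1)⟫_ℝ := by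
    have := (abs_le.1 (inner_uu_le_one hq m (m + 1))).2
    linarith
  have h7 := den_pos hq (m + 1)
  have h7' : 1 ≤ 1 + cc q * al q (m + 1) := by
    have := mul_pos (cc_pos hq) (al_pos hq (m + 1))
    linarith
  have h8 : lam q m * (1 - ⟪uu q m, uu q (m + 1)⟫_ℝ) / (1 + cc q * al q (m + 1)) ≤
      8 * al q m ^ 2 := by
    rw [div_le_iff₀ h7]
    have h9 : lam q m * (1 - ⟪uu q m, uu q (m + 1)⟫_ℝ) ≤ 1 * (8 * al q m ^ 2) :=
      mul_le_mul h2 h5 h6 (by norm_num)
    have h10 : 0 ≤ 8 * al q m ^ 2 := by positivity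
    nlinarith
  linarith

noncomputable def ww (q m : ℕ) : E := lam q m • uu q m + (cc q * lam q m) • nn (m + 2)

/-- value of the `j`-th element at `uu m` -/
lemma inner_ww_uu (q j m : ℕ) : ⟪ww q j, uu q m⟫_ℝ = lam q j * ⟪uu q j, uu q m⟫_ℝ +
    cc q * lam q j * (al q m * ((if j = m then 1 else 0) + (if j + 1 = m then 1 else 0) +
      1 / 2 * (if j + 2 = m then 1 else 0))) := by
  unfold ww
  rw [inner_add_left, real_inner_smul_left, real_inner_smul_left, inner_nn_uu]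
  have e1 : (j + 2 = m + 2) ↔ (j = m) := by omega
  have e2 : (j + 2 = m + 1) ↔ (j + 1 = m) := by omega
  simp only [e1, e2]

lemma D_zero {q : ℕ} (hq : 4 ≤ q) (m : ℕ) :
    ⟪ww q m - ww q (m + 1), uu q (m + 1)⟫_ℝ = 0 := by
  rw [inner_sub_left, inner_ww_uu, inner_ww_uu, real_inner_self_eq_norm_sq, norm_uu hq]
  have h2 := (den_pos hq (m + 1)).ne'
  have e3 : ¬ (m = m + 1) := by omega
  have e4 : ¬ (m + 2 = m + 1) := by omega
  have e5 : ¬ (m + 1 + 1 = m + 1) := by omega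
  have e6 : ¬ (m + 1 + 2 = m + 1) := by omega
  simp only [e3, e4, e6, if_true, if_false]
  rw [show lam q (m + 1) = lam q m * (⟪uu q m, uu q (m + 1)⟫_ℝ + cc q * al q (m + 1)) /
    (1 + cc q * al q (m + 1)) from rfl]
  field_simp
  ring

lemma D_self {q : ℕ} (hq : 4 ≤ q) (m : ℕ) :
    79 / 80 * (cc q * al q m) ≤ ⟪ww q m - ww q (m + 1), uu q m⟫_ℝ := by
  rw [inner_sub_left, inner_ww_uu, inner_ww_uu, real_inner_self_eq_norm_sq, norm_uu hq]
  have e3 : ¬ (m + 1 = m) := by omega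
  have e4 : ¬ (m + 2 = m) := by omega
  have e5 : ¬ (m + 1 + 1 = m) := by omega
  have e6 : ¬ (m + 1 + 2 = m) := by omega
  simp only [e3, e4, e6, if_true, if_false]
  have h1 := al_pos hq m
  have h2 := lam_ge hq m
  have h3 := lam_anti hq m
  have h4 := lam_pos hq (m + 1)
  have h5 := (abs_le.1 (inner_uu_le_one hq (m + 1) m)).2
  have h6 : lam q (m + 1) * ⟪uu q (m + 1), uu q m⟫_ℝ ≤ lam q m := by nlinarith
  have h7 : 0 < cc q * al q m := mul_pos (cc_pos hq) h1
  nlinarith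

lemma be_near (q j m : ℕ) (h : m + MM q ≤ 5 * (j + MM q)) : be q j ≤ 5 * be q m := by
  have h3 : (m : ℝ) + MM q ≤ 5 * ((j : ℝ) + MM q) := by exact_mod_cast h
  have hM := MM_pos q
  clear h
  unfold be
  have hj0 : (0 : ℝ) ≤ (j : ℝ) := Nat.cast_nonneg j
  have hm0 : (0 : ℝ) ≤ (m : ℝ) := Nat.cast_nonneg m
  have e1 : 5 * (1 / ((m : ℝ) + MM q)) = 5 / ((m : ℝ) + MM q) := by ring
  have hjp : (0 : ℝ) < (j : ℝ) + MM q := by linarith
  have hmp : (0 : ℝ) < (m : ℝ) + MM q := by linarith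
  rw [e1, div_le_div_iff₀ hjp hmp]
  linarith

lemma al_near (q j m : ℕ) (h : m + MM q ≤ 5 * (j + MM q)) : al q j ≤ 5 * al q m := by
  have h1 := be_near q j m h
  have h2 : (KK q : ℝ) * be q j ≤ KK q * (5 * be q m) :=
    mul_le_mul_of_nonneg_left h1 (Nat.cast_nonneg _)
  unfold al
  linarith

lemma D_other {q : ℕ} (hq : 4 ≤ q) (j m : ℕ) (h1 : j ≠ m) (h2 : j + 1 ≠ m) :
    |⟪ww q j - ww q (j + 1), uu q m⟫_ℝ| ≤ 57 / 100 * (cc q * al q m) := by
  have ha := al_pos hq m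
  have hc := cc_pos hq
  have hca : 0 < cc q * al q m := mul_pos hc ha
  have hM4 : 4 ≤ MM q := by
    have h5 : 1 ≤ KK q ^ 2 * q := by
      have : KK q ≠ 0 := by unfold KK; omega
      exact Nat.one_le_iff_ne_zero.2 (mul_ne_zero (pow_ne_zero _ this) (by omega))
    unfold MM
    nlinarith
  rw [inner_sub_left, inner_ww_uu, inner_ww_uu]
  -- u part
  have hu : |lam q j * ⟪uu q j, uu q m⟫_ℝ - lam q (j + 1) * ⟪uu q (j + 1), uu q m⟫_ℝ| ≤
      7 / 100 * (cc q * al q m) := by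
    by_cases hfar : 4 * (j + 1 + MM q) < m + MM q
    · have hfar2 : 4 * (j + MM q) < m + MM q := by
        generalize MM q = K at *
        omega
      rw [inner_uu_far q j m hfar2, inner_uu_far q (j + 1) m hfar]
      clear hfar hfar2
      rw [mul_zero, mul_zero, sub_zero, abs_zero]
      positivity
    · have hnear : m + MM q ≤ 5 * (j + MM q) := by omega
      have hj : al q j ≤ 5 * al q m := al_near q j m hnear
      have hb : be q j ≤ 5 * be q m := be_near q j m hnear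
      clear hfar
      have e : lam q j * ⟪uu q j, uu q m⟫_ℝ - lam q (j + 1) * ⟪uu q (j + 1), uu q m⟫_ℝ =
          (lam q j - lam q (j + 1)) * ⟪uu q j, uu q m⟫_ℝ +
            lam q (j + 1) * ⟪uu q j - uu q (j + 1), uu q m⟫_ℝ := by
        rw [inner_sub_left]; ring
      rw [e]
      have b1 : |(lam q j - lam q (j + 1)) * ⟪uu q j, uu q m⟫_ℝ| ≤ 8 * al q j ^ 2 := by
        have h4 : 0 ≤ lam q j - lam q (j + 1) := by linarith [lam_anti hq j]
        rw [abs_mul, abs_of_nonneg h4]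
        have := lam_diff_le hq j
        have h3 := inner_uu_le_one hq j m
        have h5 : 0 ≤ |⟪uu q j, uu q m⟫_ℝ| := abs_nonneg _
        nlinarith
      have b2 : |lam q (j + 1) * ⟪uu q j - uu q (j + 1), uu q m⟫_ℝ| ≤
          5 * be q j + 9 / 2 * (al q j * al q m) := by
        rw [abs_mul, abs_of_pos (lam_pos hq (j + 1))]
        have h3 := inner_uu_sub hq j m
        have h5 := lam_le hq (j + 1)
        have h6 := lam_pos hq (j + 1)
        have h7 : 0 ≤ |⟪uu q j - uu q (j + 1), uu q m⟫_ℝ| := abs_nonneg _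
        nlinarith
      refine (abs_add_le _ _).trans ?_
      have h8 := al_le' hq m
      have h9 := al_pos hq j
      have hbe := be_eq hq m
      have c1 : al q j ^ 2 ≤ 25 * (al q m * (cc q / 256000)) := by
        have c2 : al q j ^ 2 ≤ (5 * al q m) ^ 2 := pow_le_pow_left₀ h9.le hj 2
        have c3 : al q m * al q m ≤ al q m * (cc q / 256000) :=
          mul_le_mul_of_nonneg_left h8 ha.le
        nlinarith
      have c4 : al q j * al q m ≤ 5 * (al q m * (cc q / 256000)) := by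
        have c2 : al q j * al q m ≤ 5 * al q m * al q m := mul_le_mul_of_nonneg_right hj ha.le
        have c3 : al q m * al q m ≤ al q m * (cc q / 256000) :=
          mul_le_mul_of_nonneg_left h8 ha.le
        nlinarith
      nlinarith
  -- c part
  have hc' : |cc q * lam q j * (al q m * ((if j = m then 1 else 0) + (if j + 1 = m then 1 else 0) +
      1 / 2 * (if j + 2 = m then 1 else 0))) - cc q * lam q (j + 1) * (al q m *
      ((if j + 1 = m then 1 else 0) + (if j + 1 + 1 = m then 1 else 0) +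
      1 / 2 * (if j + 1 + 2 = m then 1 else 0)))| ≤ 1 / 2 * (cc q * al q m) := by
    have l1 := lam_ge hq j
    have l2 := lam_le hq j
    have l3 := lam_ge hq (j + 1)
    have l4 := lam_le hq (j + 1)
    have l5 := lam_anti hq j
    by_cases h3 : j + 2 = m
    · have e1 : ¬ (j + 3 = m) := by omega
      have e2 : j + 1 + 1 = m := by omega
      have e3 : ¬ (j + 1 + 2 = m) := by omega
      simp only [h1, h2, h3, e3, if_true, if_false]
      have e4 : cc q * lam q j * (al q m * (0 + 0 + 1 / 2 * 1)) -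
          cc q * lam q (j + 1) * (al q m * (0 + 1 + 1 / 2 * 0)) =
          (cc q * al q m) * (1 / 2 * lam q j - lam q (j + 1)) := by ring
      rw [e4, abs_mul, abs_of_pos hca, mul_comm]
      apply mul_le_mul_of_nonneg_right _ hca.le
      rw [abs_le]
      constructor <;> linarith
    · by_cases h4 : j + 3 = m
      · have e2 : ¬ (j + 1 + 1 = m) := by omega
        have e3 : j + 1 + 2 = m := by omega
        simp only [h1, h2, h3, e3, if_true, if_false]
        have e4 : cc q * lam q j * (al q m * (0 + 0 + 1 / 2 * 0)) -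
            cc q * lam q (j + 1) * (al q m * (0 + 0 + 1 / 2 * 1)) =
            (cc q * al q m) * (- (1 / 2 * lam q (j + 1))) := by ring
        rw [e4, abs_mul, abs_of_pos hca, mul_comm]
        apply mul_le_mul_of_nonneg_right _ hca.le
        rw [abs_le]
        constructor <;> linarith
      · have e2 : ¬ (j + 1 + 1 = m) := by omega
        have e3 : ¬ (j + 1 + 2 = m) := by omega
        simp only [h1, h2, h3, e3, if_false]
        simp
        positivity
  have e : lam q j * ⟪uu q j, uu q m⟫_ℝ + cc q * lam q j * (al q m * ((if j = m then 1 else 0) +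
      (if j + 1 = m then 1 else 0) + 1 / 2 * (if j + 2 = m then 1 else 0))) -
      (lam q (j + 1) * ⟪uu q (j + 1), uu q m⟫_ℝ + cc q * lam q (j + 1) * (al q m *
      ((if j + 1 = m then 1 else 0) + (if j + 1 + 1 = m then 1 else 0) +
      1 / 2 * (if j + 1 + 2 = m then 1 else 0)))) =
      (lam q j * ⟪uu q j, uu q m⟫_ℝ - lam q (j + 1) * ⟪uu q (j + 1), uu q m⟫_ℝ) +
      (cc q * lam q j * (al q m * ((if j = m then 1 else 0) + (if j + 1 = m then 1 else 0) +
      1 / 2 * (if j + 2 = m then 1 else 0))) - cc q * lam q (j + 1) * (al q m *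
      ((if j + 1 = m then 1 else 0) + (if j + 1 + 1 = m then 1 else 0) +
      1 / 2 * (if j + 1 + 2 = m then 1 else 0)))) := by ring
  rw [e]
  refine (abs_add_le _ _).trans ?_
  linarith

/-! ### Norms in the dual -/

lemma inner_ww_self {q : ℕ} (hq : 4 ≤ q) (m : ℕ) :
    ⟪ww q m, uu q m⟫_ℝ = lam q m * (1 + cc q * al q m) := by
  rw [inner_ww_uu, real_inner_self_eq_norm_sq, norm_uu hq]
  have e3 : ¬ (m + 1 = m) := by omega
  have e4 : ¬ (m + 2 = m) := by omega
  simp only [e3, e4, if_true, if_false]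
  ring

lemma norm_Jww {q : ℕ} (hq : 4 ≤ q) (m : ℕ) : ‖J q (ww q m)‖ = lam q m := by
  apply le_antisymm
  · unfold ww
    apply norm_J_le'
    · rw [norm_smul, norm_uu hq, mul_one, Real.norm_eq_abs, abs_of_pos (lam_pos hq m)]
    · rw [abs_of_pos (lam_pos hq m)]
  · have h1 := (J q (ww q m)).le_opNorm (ofE q (uu q m))
    rw [J_apply, toE_ofE, inner_ww_self hq, norm_ofE, N_uu hq, Real.norm_eq_abs] at h1
    have h2 := den_pos hq m
    have h3 := lam_pos hq m
    rw [abs_of_pos (by positivity)] at h1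
    exact le_of_mul_le_mul_right h1 h2

lemma norm_two (i k : ℕ) (hik : i ≠ k) (a b : ℝ) (ha : |a| ≤ 1) (hb : |b| ≤ 1) :
    ‖a • nn i - b • nn k‖ ≤ 71 / 50 := by
  have h1 : ‖a • nn i - b • nn k‖ ^ 2 = a ^ 2 + b ^ 2 := by
    rw [norm_sub_sq_real, norm_smul, norm_smul, norm_nn, norm_nn, real_inner_smul_left,
      real_inner_smul_right, inner_nn, if_neg hik, Real.norm_eq_abs, Real.norm_eq_abs, mul_one,
      mul_one, sq_abs, sq_abs]
    ring
  have h2 : a ^ 2 ≤ 1 := by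
    rw [← sq_abs]; nlinarith [abs_nonneg a]
  have h3 : b ^ 2 ≤ 1 := by
    rw [← sq_abs]; nlinarith [abs_nonneg b]
  have h4 : ‖a • nn i - b • nn k‖ ^ 2 ≤ (71 / 50) ^ 2 := by rw [h1]; norm_num; linarith
  exact le_of_sq_le_sq h4 (by norm_num)

lemma norm_lu {q : ℕ} (hq : 4 ≤ q) (m : ℕ) :
    ‖lam q m • uu q m - lam q (m + 1) • uu q (m + 1)‖ ≤ 5 * al q m := by
  have e : lam q m • uu q m - lam q (m + 1) • uu q (m + 1) =
      (lam q m - lam q (m + 1)) • uu q m + lam q (m + 1) • (uu q m - uu q (m + 1)) := by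
    module
  rw [e]
  refine (norm_add_le _ _).trans ?_
  rw [norm_smul, norm_smul, norm_uu hq, Real.norm_eq_abs, Real.norm_eq_abs,
    abs_of_nonneg (by linarith [lam_anti hq m] : 0 ≤ lam q m - lam q (m + 1)),
    abs_of_pos (lam_pos hq (m + 1))]
  have h1 := lam_diff_le hq m
  have h2 := norm_uu_sub hq m
  have h3 := lam_le hq (m + 1)
  have h4 := lam_pos hq (m + 1)
  have h5 := al_le_small hq m
  have h6 := al_pos hq m
  have h7 : 0 ≤ ‖uu q m - uu q (m + 1)‖ := norm_nonneg _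
  nlinarith

lemma ww_sub (q m : ℕ) : ww q m - ww q (m + 1) =
    (lam q m • uu q m - lam q (m + 1) • uu q (m + 1)) +
      cc q • (lam q m • nn (m + 2) - lam q (m + 1) • nn (m + 1 + 2)) := by
  unfold ww; module

lemma norm_diff_le {q : ℕ} (hq : 4 ≤ q) (m : ℕ) :
    ‖J q (ww q m - ww q (m + 1))‖ ≤ 3 / 2 * cc q := by
  refine (norm_J_le q _).trans ?_
  rw [ww_sub]
  refine (norm_add_le _ _).trans ?_
  have h1 := norm_lu hq m
  have h2 := norm_two (m + 2) (m + 1 + 2) (by omega) (lam q m) (lam q (m + 1))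
    (by rw [abs_of_pos (lam_pos hq m)]; exact lam_le hq m)
    (by rw [abs_of_pos (lam_pos hq (m + 1))]; exact lam_le hq (m + 1))
  have h3 := al_le' hq m
  have hc := cc_pos hq
  rw [norm_smul, Real.norm_eq_abs, abs_of_pos hc]
  nlinarith

lemma norm_diff_ge {q : ℕ} (hq : 4 ≤ q) (m : ℕ) :
    11 / 10 * cc q ≤ ‖J q (ww q m - ww q (m + 1))‖ := by
  have hc := cc_pos hq
  have hc1 := cc_le hq
  set y : E := nn (m + 2) - nn (m + 1 + 2) with hy
  have hy1 : ‖y‖ ≤ 71 / 50 := by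
    have := norm_two (m + 2) (m + 1 + 2) (by omega) 1 1 (by simp) (by simp)
    rwa [one_smul, one_smul] at this
  have hN : N q y ≤ 167 / 100 := by
    have h2 : supn y ≤ 1 := by
      apply supn_le
      intro j
      rw [hy, inner_sub_right, inner_nn, inner_nn]
      by_cases h3 : j = m + 2
      · have h4 : ¬ (j = m + 1 + 2) := by omega
        rw [if_pos h3, if_neg h4]; simp
      · rw [if_neg h3]
        split_ifs <;> simp
    unfold N
    nlinarith
  have h1 := (J q (ww q m - ww q (m + 1))).le_opNorm (ofE q y)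
  rw [J_apply, toE_ofE, norm_ofE] at h1
  have h3 : 197 / 100 * cc q ≤ ⟪ww q m - ww q (m + 1), y⟫_ℝ := by
    rw [ww_sub, inner_add_left, real_inner_smul_left]
    have e1 : ⟪lam q m • nn (m + 2) - lam q (m + 1) • nn (m + 1 + 2), y⟫_ℝ =
        lam q m + lam q (m + 1) := by
      rw [hy]
      simp only [inner_sub_left, inner_sub_right, real_inner_smul_left, inner_nn]
      rw [if_neg (show ¬ (m + 1 + 2 = m + 2) by omega),
        if_neg (show ¬ (m + 2 = m + 1 + 2) by omega), if_pos trivial]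
      ring
    have e2 : |⟪lam q m • uu q m - lam q (m + 1) • uu q (m + 1), y⟫_ℝ| ≤
        5 * al q m * (71 / 50) := by
      refine (abs_real_inner_le_norm _ _).trans ?_
      have h6 := al_pos hq m
      exact mul_le_mul (norm_lu hq m) hy1 (norm_nonneg _) (by positivity)
    have e3 := (abs_le.1 e2).1
    have l1 := lam_ge hq m
    have l2 := lam_ge hq (m + 1)
    have l3 := al_le' hq m
    rw [e1]
    nlinarith
  rw [Real.norm_eq_abs] at h1
  have h4 : 197 / 100 * cc q ≤ ‖J q (ww q m - ww q (m + 1))‖ * N q y :=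
    (h3.trans (le_abs_self _)).trans h1
  have h5 : 0 ≤ ‖J q (ww q m - ww q (m + 1))‖ := norm_nonneg _
  nlinarith

/-! ### Averages of a sparse subsequence tend to zero -/

def mk (q k : ℕ) : ℕ := MM q * 5 ^ k - MM q

lemma mk_add (q k : ℕ) : mk q k + MM q = MM q * 5 ^ k := by
  unfold mk
  have : 1 ≤ 5 ^ k := Nat.one_le_pow _ _ (by norm_num)
  have h2 : MM q ≤ MM q * 5 ^ k := Nat.le_mul_of_pos_right _ this
  omega

lemma mk_far {q k l : ℕ} (h : k < l) : 4 * (mk q k + MM q) < mk q l + MM q := by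
  rw [mk_add, mk_add]
  have h1 : 5 ^ (k + 1) ≤ 5 ^ l := Nat.pow_le_pow_right (by norm_num) h
  have h2 : 5 ^ (k + 1) = 5 * 5 ^ k := by ring
  have h3 : 0 < 5 ^ k := by positivity
  have hM2 : 0 < MM q := by unfold MM; omega
  have h4 : 4 * 5 ^ k < 5 ^ l := by omega
  calc 4 * (MM q * 5 ^ k) = MM q * (4 * 5 ^ k) := by ring
    _ < MM q * 5 ^ l := Nat.mul_lt_mul_of_pos_left h4 hM2

lemma ww_orth {q k l : ℕ} (h : k < l) : ⟪ww q (mk q k), ww q (mk q l)⟫_ℝ = 0 := by
  have hf := mk_far (q := q) h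
  have hM2 : 2 ≤ MM q := by unfold MM; omega
  have e1 := inner_uu_far q (mk q k) (mk q l) hf
  have e2 : ⟪uu q (mk q k), nn (mk q l + 2)⟫_ℝ = 0 := by
    rw [real_inner_comm, inner_nn_uu, if_neg (by omega), if_neg (by omega), if_neg (by omega)]
    ring
  have e3 : ⟪nn (mk q k + 2), uu q (mk q l)⟫_ℝ = 0 := by
    rw [inner_nn_uu, if_neg (by omega), if_neg (by omega), if_neg (by omega)]
    ring
  have e4 : ⟪nn (mk q k + 2), nn (mk q l + 2)⟫_ℝ = 0 := by rw [inner_nn, if_neg (by omega)]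
  unfold ww
  simp only [inner_add_left, inner_add_right, real_inner_smul_left, real_inner_smul_right,
    e1, e2, e3, e4]
  ring

lemma norm_ww_le {q : ℕ} (hq : 4 ≤ q) (m : ℕ) : ‖ww q m‖ ≤ 2 := by
  unfold ww
  refine (norm_add_le _ _).trans ?_
  have h1 := lam_pos hq m
  have h2 := lam_le hq m
  have h3 := cc_pos hq
  have h4 := cc_le hq
  rw [norm_smul, norm_smul, norm_uu hq, norm_nn, Real.norm_eq_abs, Real.norm_eq_abs,
    abs_of_pos h1, abs_of_pos (by positivity)]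
  nlinarith

lemma norm_sum_ww {q : ℕ} (hq : 4 ≤ q) (K : ℕ) :
    ‖∑ k ∈ range K, ww q (mk q k)‖ ^ 2 ≤ K * 2 ^ 2 := by
  induction K with
  | zero => simp
  | succ K ih =>
    rw [sum_range_succ, norm_add_sq_real]
    have h1 : ⟪∑ k ∈ range K, ww q (mk q k), ww q (mk q K)⟫_ℝ = 0 := by
      rw [sum_inner]
      apply sum_eq_zero
      intro k hk
      exact ww_orth (mem_range.1 hk)
    rw [h1]
    have h2 := norm_ww_le hq (mk q K)
    have h3 : 0 ≤ ‖ww q (mk q K)‖ := norm_nonneg _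
    push_cast
    nlinarith

lemma norm_avg {q : ℕ} (hq : 4 ≤ q) (K : ℕ) (hK : 0 < K) (ε : ℝ) (hε : 0 < ε)
    (hKε : 2 ^ 2 < ε ^ 2 * K) :
    ‖(K : ℝ)⁻¹ • ∑ k ∈ range K, ww q (mk q k)‖ < ε := by
  have hKR : (0 : ℝ) < K := by exact_mod_cast hK
  rw [norm_smul, norm_inv, Real.norm_eq_abs, abs_of_pos hKR, inv_mul_lt_iff₀ hKR]
  have h2 := norm_sum_ww hq K
  have h3 : ‖∑ k ∈ range K, ww q (mk q k)‖ ^ 2 < (K * ε) ^ 2 := by
    refine h2.trans_lt ?_
    nlinarith
  exact lt_of_pow_lt_pow_left₀ 2 (by positivity) h3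

end Pool.Agent.Y648.GR
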