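import Pool.Agent.Y648.GR.C

set_option autoImplicit false

/-!
# The space
-/

open scoped InnerProductSpace
open Finset

namespace Pool.Agent.Y648.GR

open Pool.Agent.Helper415.DGA (E ee nn)

/-- The Hilbert space: the closed span of the vectors `ww q m`. -/
noncomputable def HH (q : ℕ) : Submodule ℝ E :=
  (Submodule.span ℝ (Set.range (ww q))).topologicalClosure

instance (q : ℕ) : CompleteSpace ↥(HH q) :=
  IsClosed.completeSpace_coe (hs := Submodule.isClosed_topologicalClosure _)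

/-- The same space with the new norm. -/
def XX (q : ℕ) : Type := ↥(HH q)

noncomputable instance (q : ℕ) : AddCommGroup (XX q) := inferInstanceAs (AddCommGroup ↥(HH q))
noncomputable instance (q : ℕ) : Module ℝ (XX q) := inferInstanceAs (Module ℝ ↥(HH q))

/-- The identity map. -/
noncomputable def TT (q : ℕ) : ↥(HH q) ≃ₗ[ℝ] XX q := LinearEquiv.refl ℝ ↥(HH q)

/-- The inclusion in `E`. -/
noncomputable def inc (q : ℕ) : XX q →ₗ[ℝ] E := (HH q).subtype.comp (TT q).symm.toLinearMap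

lemma inc_TT (q : ℕ) (x : ↥(HH q)) : inc q (TT q x) = x := rfl

lemma inc_injective (q : ℕ) : Function.Injective (inc q) := fun x y h =>
  (TT q).symm.injective (Subtype.ext h)

/-- The new norm. -/
noncomputable def xNorm (q : ℕ) : AddGroupNorm (XX q) where
  toFun := fun x => ‖J q (inc q x)‖
  map_zero' := by rw [map_zero, map_zero, norm_zero]
  add_le' := fun _ _ => by rw [map_add, map_add]; exact norm_add_le _ _
  neg' := fun x => by rw [map_neg, map_neg, norm_neg]
  eq_zero_of_map_eq_zero' := fun x hx => by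
    have h1 := norm_J_ge q (inc q x)
    rw [hx, mul_zero] at h1
    have h2 : inc q x = 0 := norm_le_zero_iff.1 h1
    exact inc_injective q (by rw [h2, map_zero])

noncomputable instance (q : ℕ) : NormedAddCommGroup (XX q) := (xNorm q).toNormedAddCommGroup

lemma norm_XX (q : ℕ) (x : XX q) : ‖x‖ = ‖J q (inc q x)‖ := rfl

noncomputable instance (q : ℕ) : NormedSpace ℝ (XX q) where
  norm_smul_le a x := by
    rw [norm_XX, norm_XX, map_smul, map_smul, norm_smul]

lemma norm_TT_le (q : ℕ) (x : ↥(HH q)) : ‖TT q x‖ ≤ ‖x‖ := by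
  rw [norm_XX, inc_TT]; exact norm_J_le q _

lemma norm_TT_ge (q : ℕ) (x : ↥(HH q)) : ‖x‖ ≤ (1 + cc q) * ‖TT q x‖ := by
  rw [norm_XX, inc_TT]; exact norm_J_ge q _

instance (q : ℕ) : CompleteSpace (XX q) := by
  have hc := cc_nonneg q
  have hanti : AntilipschitzWith (Real.toNNReal (1 + cc q)) (TT q) := by
    apply AddMonoidHomClass.antilipschitz_of_bound (TT q)
    intro x
    rw [Real.coe_toNNReal _ (by linarith)]
    exact norm_TT_ge q x
  have hlip : LipschitzWith 1 (TT q) := by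
    apply AddMonoidHomClass.lipschitz_of_bound_nnnorm (TT q) 1
    intro x
    rw [one_mul]
    exact norm_TT_le q x
  have hemb := hanti.isUniformEmbedding hlip.uniformContinuous
  exact (completeSpace_congr (e := (TT q).toEquiv) hemb).1 inferInstance

lemma smoothX {q : ℕ} (hq : 4 ≤ q) (x y : XX q) (hx : ‖x‖ = 1) (hy : ‖y‖ = 1) (u : ℝ)
    (hu : 0 < u) : (‖x + u • y‖ + ‖x - u • y‖) / 2 - 1 ≤ Real.sqrt (1 + kap q * u ^ 2) - 1 := by
  have h := smooth q hq (J q (inc q x)) (J q (inc q y)) hx hy u hu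
  rw [norm_XX, norm_XX, map_add, map_sub, map_smul, map_add, map_sub, map_smul]
  exact h

lemma ww_mem (q m : ℕ) : ww q m ∈ HH q :=
  Submodule.le_topologicalClosure _ (Submodule.subset_span ⟨m, rfl⟩)

/-- The residuals. -/
noncomputable def fX (q m : ℕ) : XX q := TT q ⟨ww q m, ww_mem q m⟩

lemma inc_fX (q m : ℕ) : inc q (fX q m) = ww q m := rfl

lemma norm_fX {q : ℕ} (hq : 4 ≤ q) (m : ℕ) : ‖fX q m‖ = lam q m := by
  rw [norm_XX, inc_fX]; exact norm_Jww hq m

noncomputable def aa (q m : ℕ) : ℝ := ‖fX q m - fX q (m + 1)‖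

lemma aa_le {q : ℕ} (hq : 4 ≤ q) (m : ℕ) : aa q m ≤ 3 / 2 * cc q := by
  unfold aa
  rw [norm_XX, map_sub, inc_fX, inc_fX]; exact norm_diff_le hq m

lemma aa_ge {q : ℕ} (hq : 4 ≤ q) (m : ℕ) : 11 / 10 * cc q ≤ aa q m := by
  unfold aa
  rw [norm_XX, map_sub, inc_fX, inc_fX]; exact norm_diff_ge hq m

lemma aa_pos {q : ℕ} (hq : 4 ≤ q) (m : ℕ) : 0 < aa q m := by
  have h1 := aa_ge hq m
  have h2 := cc_pos hq
  linarith

noncomputable def gX (q m : ℕ) : XX q := (aa q m)⁻¹ • (fX q m - fX q (m + 1))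

lemma norm_gX {q : ℕ} (hq : 4 ≤ q) (m : ℕ) : ‖gX q m‖ = 1 := by
  unfold gX
  have h1 := aa_pos hq m
  rw [norm_smul, norm_inv, Real.norm_eq_abs, abs_of_pos h1]
  exact inv_mul_cancel₀ h1.ne'

def DD (q : ℕ) : Set (XX q) := {x | ∃ j, x = gX q j ∨ x = -gX q j}

lemma FX_bound {q : ℕ} (hq : 4 ≤ q) (m : ℕ) (x : XX q) :
    ‖(1 + cc q * al q m)⁻¹ * ⟪inc q x, uu q m⟫_ℝ‖ ≤ 1 * ‖x‖ := by
  have h0 := den_pos hq m
  rw [one_mul, norm_mul, norm_inv, Real.norm_eq_abs (1 + cc q * al q m), abs_of_pos h0]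
  have h2 := (J q (inc q x)).le_opNorm (ofE q (uu q m))
  rw [norm_ofE, N_uu hq, J_apply, toE_ofE] at h2
  rw [inv_mul_le_iff₀ h0, mul_comm]
  exact h2

/-- The norming functionals of the residuals. -/
noncomputable def FX (q : ℕ) (hq : 4 ≤ q) (m : ℕ) : XX q →L[ℝ] ℝ :=
  LinearMap.mkContinuous
    { toFun := fun x : XX q => (1 + cc q * al q m)⁻¹ * ⟪inc q x, uu q m⟫_ℝ
      map_add' := fun x y => by rw [map_add, inner_add_left]; ring
      map_smul' := fun a x => by
        rw [map_smul, real_inner_smul_left, RingHom.id_apply, smul_eq_mul]; ring }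
    1 (FX_bound hq m)

lemma FX_apply {q : ℕ} (hq : 4 ≤ q) (m : ℕ) (x : XX q) :
    FX q hq m x = (1 + cc q * al q m)⁻¹ * ⟪inc q x, uu q m⟫_ℝ := rfl

lemma FX_fX {q : ℕ} (hq : 4 ≤ q) (m : ℕ) : FX q hq m (fX q m) = lam q m := by
  have h1 := den_pos hq m
  rw [FX_apply, inc_fX, inner_ww_self hq, mul_comm (lam q m), ← mul_assoc,
    inv_mul_cancel₀ h1.ne', one_mul]

lemma norm_FX {q : ℕ} (hq : 4 ≤ q) (m : ℕ) : ‖FX q hq m‖ = 1 := by
  apply le_antisymm
  · exact ContinuousLinearMap.opNorm_le_bound _ zero_le_one (fun x => FX_bound hq m x)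
  · have h2 := (FX q hq m).le_opNorm (fX q m)
    rw [FX_fX, norm_fX hq, Real.norm_eq_abs, abs_of_pos (lam_pos hq m)] at h2
    have h3 := lam_pos hq m
    by_contra hcon
    push Not at hcon
    nlinarith

lemma FX_gX {q : ℕ} (hq : 4 ≤ q) (j m : ℕ) : FX q hq m (gX q j) =
    (1 + cc q * al q m)⁻¹ * ((aa q j)⁻¹ * ⟪ww q j - ww q (j + 1), uu q m⟫_ℝ) := by
  unfold gX
  rw [map_smul, FX_apply, map_sub, inc_fX, inc_fX, smul_eq_mul]; ring

lemma FX_le {q : ℕ} (hq : 4 ≤ q) (j m : ℕ) : |FX q hq m (gX q j)| ≤ FX q hq m (gX q m) := by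
  have h1 := al_pos hq m
  have hc := cc_pos hq
  have hca : 0 < cc q * al q m := mul_pos hc h1
  have h2 : 0 < (1 + cc q * al q m)⁻¹ := inv_pos.2 (den_pos hq m)
  rw [FX_gX, FX_gX, abs_mul, abs_of_pos h2]
  apply mul_le_mul_of_nonneg_left _ h2.le
  have a0 := aa_pos hq j
  have b0 := aa_pos hq m
  have a1 := aa_ge hq j
  have b2 := aa_le hq m
  have hself := D_self hq m
  have hm : 65 / 100 * al q m ≤ (aa q m)⁻¹ * ⟪ww q m - ww q (m + 1), uu q m⟫_ℝ := by
    rw [inv_mul_eq_div, le_div_iff₀ b0]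
    nlinarith
  by_cases h3 : j = m
  · subst h3
    rw [abs_of_nonneg]
    linarith
  by_cases h4 : j + 1 = m
  · subst h4
    rw [D_zero hq, mul_zero, abs_zero]
    linarith
  · have h5 := D_other hq j m h3 h4
    rw [abs_mul, abs_of_pos (inv_pos.2 a0)]
    refine le_trans ?_ hm
    rw [inv_mul_eq_div, div_le_iff₀ a0]
    nlinarith

lemma FX_next {q : ℕ} (hq : 4 ≤ q) (m : ℕ) : FX q hq (m + 1) (gX q m) = 0 := by
  rw [FX_gX, D_zero hq]; ring

lemma fX_succ {q : ℕ} (hq : 4 ≤ q) (m : ℕ) : fX q (m + 1) = fX q m - aa q m • gX q m := by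
  unfold gX
  rw [smul_smul, mul_inv_cancel₀ (aa_pos hq m).ne', one_smul]
  abel

lemma line_opt {q : ℕ} (hq : 4 ≤ q) (m : ℕ) (b : ℝ) :
    ‖fX q m - aa q m • gX q m‖ ≤ ‖fX q m - b • gX q m‖ := by
  rw [← fX_succ hq, norm_fX hq, ← FX_fX hq]
  have h1 : FX q hq (m + 1) (fX q (m + 1)) = FX q hq (m + 1) (fX q m - b • gX q m) := by
    rw [fX_succ hq, map_sub, map_sub, map_smul, map_smul, FX_next, smul_zero, smul_zero]
  rw [h1]
  have h2 := (FX q hq (m + 1)).le_opNorm (fX q m - b • gX q m)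
  rw [norm_FX, one_mul] at h2
  exact (le_abs_self _).trans h2

lemma gX_mem (q m : ℕ) : gX q m ∈ DD q := ⟨m, Or.inl rfl⟩

/-- differences are in the span -/
lemma diff_mem {q : ℕ} (hq : 4 ≤ q) (m : ℕ) :
    fX q 0 - fX q m ∈ Submodule.span ℝ (DD q) := by
  induction m with
  | zero => rw [sub_self]; exact Submodule.zero_mem _
  | succ m ih =>
    have h1 : fX q 0 - fX q (m + 1) = (fX q 0 - fX q m) + aa q m • gX q m := by
      rw [fX_succ hq]; abel
    rw [h1]
    exact Submodule.add_mem _ ih (Submodule.smul_mem _ _ (Submodule.subset_span (gX_mem q m)))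

lemma fX0_mem {q : ℕ} (hq : 4 ≤ q) :
    fX q 0 ∈ (Submodule.span ℝ (DD q)).topologicalClosure := by
  rw [← SetLike.mem_coe, Submodule.topologicalClosure_coe, Metric.mem_closure_iff]
  intro ε hε
  obtain ⟨K, hK⟩ := exists_nat_gt (2 ^ 2 / ε ^ 2)
  have hKpos : (0 : ℝ) < K := lt_of_le_of_lt (by positivity) hK
  have hKpos' : 0 < K := by exact_mod_cast hKpos
  have hKε : 2 ^ 2 < ε ^ 2 * K := by
    rw [div_lt_iff₀ (by positivity)] at hK
    linarith
  refine ⟨(K : ℝ)⁻¹ • ∑ k ∈ range K, (fX q 0 - fX q (mk q k)), ?_, ?_⟩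
  · apply Submodule.smul_mem
    exact Submodule.sum_mem _ (fun k _ => diff_mem hq (mk q k))
  · have h1 : fX q 0 - (K : ℝ)⁻¹ • ∑ k ∈ range K, (fX q 0 - fX q (mk q k)) =
        (K : ℝ)⁻¹ • ∑ k ∈ range K, fX q (mk q k) := by
      rw [sum_sub_distrib, sum_const, card_range, smul_sub, ← Nat.cast_smul_eq_nsmul ℝ, smul_smul,
        inv_mul_cancel₀ hKpos.ne', one_smul]
      abel
    rw [dist_eq_norm, h1, norm_XX, map_smul, map_sum]
    refine (norm_J_le q _).trans_lt ?_
    exact norm_avg hq K hKpos' ε hε hKε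

lemma fX_mem {q : ℕ} (hq : 4 ≤ q) (m : ℕ) :
    fX q m ∈ (Submodule.span ℝ (DD q)).topologicalClosure := by
  have h1 : fX q m = fX q 0 - (fX q 0 - fX q m) := by abel
  rw [h1]
  exact Submodule.sub_mem _ (fX0_mem hq) (Submodule.le_topologicalClosure _ (diff_mem hq m))

lemma dense_span {q : ℕ} (hq : 4 ≤ q) :
    Dense ((Submodule.span ℝ (DD q) : Submodule ℝ (XX q)) : Set (XX q)) := by
  have h1 : ∀ x : E, x ∈ Submodule.span ℝ (Set.range (ww q)) →
      ∀ hx : x ∈ HH q, TT q ⟨x, hx⟩ ∈ (Submodule.span ℝ (DD q)).topologicalClosure := by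
    intro x hx
    induction hx using Submodule.span_induction with
    | mem x h =>
      obtain ⟨m, rfl⟩ := h
      intro hx
      exact fX_mem hq m
    | zero =>
      intro hx
      exact Submodule.zero_mem _
    | add x y hx hy ihx ihy =>
      intro hxy
      have hx' : x ∈ HH q := Submodule.le_topologicalClosure _ hx
      have hy' : y ∈ HH q := Submodule.le_topologicalClosure _ hy
      exact Submodule.add_mem _ (ihx hx') (ihy hy')
    | smul a x hx ihx =>
      intro hax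
      have hx' : x ∈ HH q := Submodule.le_topologicalClosure _ hx
      exact Submodule.smul_mem _ a (ihx hx')
  intro x
  rw [Metric.mem_closure_iff]
  intro ε hε
  have hx : (inc q x) ∈ closure ((Submodule.span ℝ (Set.range (ww q)) : Submodule ℝ E) : Set E) := by
    have := ((TT q).symm x).2
    unfold HH at this
    rwa [← SetLike.mem_coe, Submodule.topologicalClosure_coe] at this
  rw [Metric.mem_closure_iff] at hx
  obtain ⟨y, hy, hxy⟩ := hx (ε / 2) (by positivity)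
  have hy' : y ∈ HH q := Submodule.le_topologicalClosure _ hy
  have h2 := h1 y hy hy'
  rw [← SetLike.mem_coe, Submodule.topologicalClosure_coe, Metric.mem_closure_iff] at h2
  obtain ⟨z, hz, hyz⟩ := h2 (ε / 2) (by positivity)
  refine ⟨z, hz, ?_⟩
  have h3 : dist x (TT q ⟨y, hy'⟩) < ε / 2 := by
    rw [dist_eq_norm, norm_XX, map_sub, inc_TT]
    refine (norm_J_le q _).trans_lt ?_
    rw [← dist_eq_norm]
    exact hxy
  calc dist x z ≤ dist x (TT q ⟨y, hy'⟩) + dist (TT q ⟨y, hy'⟩) z := dist_triangle _ _ _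
    _ < ε / 2 + ε / 2 := add_lt_add h3 hyz
    _ = ε := by ring

end Pool.Agent.Y648.GR
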